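import Pool.Agent.LangEll.Master

/-! Strong hyperbolicity (in the sense of Lang) of affine surfaces which dominate an isotrivial
elliptic fibration over the multiplicative group. -/

namespace Pool.Agent.ELL.Retired.IsotrivialElliptic

theorem result {ι κ : Type*} [Fintype ι] [Fintype κ] (α β : ι → ℂ) (m : ι → ℕ)
    (r : κ → ℂ) (e : κ → ℕ) (q i : ℕ)
    (hprop : ∀ a b, a ≠ b → α a * β b ≠ α b * β a) (hr : ∀ p, r p ≠ 0)
    (hgenus : ∑ a, (q - Nat.gcd (i * m a) q) = 2 * q)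
    (hforms : 2 * q ≤ ∑ a, (i * m a) % q)
    (hpos : 0 < ∑ p, (i * e p) % q) (hgap : ∑ p, (i * e p) % q < q)
    (A : Type) [CommRing A] [IsDomain A] [Algebra ℂ A] [Algebra.FiniteType ℂ A]
    (hA : Algebra.trdeg ℂ A = 2) (u v : Aˣ) (R Z : FractionRing A) (hZ : Z ≠ 0)
    (hRu : AlgebraicIndependent ℂ ![R, algebraMap A (FractionRing A) u])
    (hrel : ∏ a, (algebraMap ℂ (FractionRing A) (α a) * R
        + algebraMap ℂ (FractionRing A) (β a)) ^ m a
      = algebraMap A (FractionRing A) ((v : A) * ∏ p, ((u : A) - algebraMap ℂ A (r p)) ^ e p)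
        * Z ^ q) :
    ∃ g : A, g ≠ 0 ∧ ∀ φ : A →ₐ[ℂ] LaurentPolynomial ℂ,
      (∃ x, ∀ c, φ x ≠ LaurentPolynomial.C c) → φ g = 0 :=
  Pool.Agent.LangEll.master_ell α β m r e q i hprop hr
    (Pool.Agent.LangEll.sum_eq_of_genus_one (fun a => i * m a) q (by omega) hgenus hforms)
    hpos hgap A hA u v R Z hZ hRu hrel

end Pool.Agent.ELL.Retired.IsotrivialElliptic
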